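import Mathlib
import Pool.Agent.helper50.RelFreeCore

/-!
Q2 of MP_e7abc8_al: relatively free algebras of finite rank over a finite field need not be
Hopfian.

For a finite field `F` with `q` elements let `m = q - 1`, `L(w) = x w`, `E(w) = x w + w x`.
The variety is defined by the two identities
`(x₀ x₁)(x₂ x₃) = 0` and `E^m(yz) + L^m(yz) + L^m(E^m(yz)) = 0`.
The endomorphism of the free algebra of rank `n` sending `x₁` to `x₁ + E^(m-1)(x₁ x₁)` and fixing
the other generators is surjective and not injective.
For `q = 2` the second identity is `(yz)x + x(x(yz)) + x((yz)x) = 0` and the endomorphism sends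
`x₁` to `x₁ + x₁ x₁`.
-/

set_option autoImplicit false

namespace Pool.Agent.Results.MP_e7abc8_al.NonHopfian

open Pool.Agent.RelFreeAlg

universe u

/-- For every finite field `F` there is a finite set `S` of polynomial identities such that for
every `n ≥ 1` the free algebra of rank `n` in the variety defined by `S` is not Hopfian. -/
theorem result (F : Type u) [Field F] [Finite F] :
    ∃ S : Set (FreeNonUnitalNonAssocAlgebra F ℕ), S.Finite ∧
      ∀ n : ℕ, 1 ≤ n → ¬ IsHopfian F (RelFree F S n) :=
  ⟨ids F (Nat.card F - 1), ids_finite F _, fun n hn => not_hopfian n hn⟩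

end Pool.Agent.Results.MP_e7abc8_al.NonHopfian
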