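import Mathlib
import Pool.Agent.helper50.RelFreeCore

/-!
Q1 of MP_e7abc8_al: relatively free algebras of finite rank over a finite field need not be
residually finite.

For a finite field `F` with `q` elements let `m = q - 1`, `L(w) = x w`, `E(w) = x w + w x`.
The variety is defined by the two identities
`(x₀ x₁)(x₂ x₃) = 0` and `E^m(yz) + L^m(yz) + L^m(E^m(yz)) = 0`.
With `x = x₁` and `u = x x` the nonzero element `u - S(T(u))`, where `S(w) = w + E^m(w)` and
`T(w) = w + L^m(w)`, lies in every ideal of finite index of the free algebra of rank `n`.
-/

set_option autoImplicit false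

namespace Pool.Agent.Results.MP_e7abc8_al.NonResiduallyFinite

open Pool.Agent.RelFreeAlg

universe u

/-- For every finite field `F` there is a finite set `S` of polynomial identities such that for
every `n ≥ 1` the free algebra of rank `n` in the variety defined by `S` is not residually
finite. -/
theorem result (F : Type u) [Field F] [Finite F] :
    ∃ S : Set (FreeNonUnitalNonAssocAlgebra F ℕ), S.Finite ∧
      ∀ n : ℕ, 1 ≤ n → ¬ IsResiduallyFinite F (RelFree F S n) :=
  ⟨ids F (Nat.card F - 1), ids_finite F _, fun n hn => not_residuallyFinite n hn⟩

end Pool.Agent.Results.MP_e7abc8_al.NonResiduallyFinite
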